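import Mathlib

/-!
# Every entropy of a one-dimensional matrix shift is the entropy of a tree-shift of finite type

Let `A` be a `0`-`1` matrix with `X_A ≠ ∅` and let `d ≥ 2` be any integer with `ρ(A) ≤ d` (for
tree-shifts on the tree with `d` children the entropy is at most `ln d`, so this is necessary). There
is a tree-shift of finite type `X` on the tree with `d` children, given by forbidden `2`-blocks, such
that `ln ln |B_n(X)| / n → ln ρ(A)`.

The labels are `none` and the pairs `(s, b)` of a state `s` and a free bit `b`; the state of a node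
and the direction determine the state of the child. If `ρ(A) < d` there is a positive integer vector
`v` with `A v ≤ d v`; the states are the pairs `(i, s)` with `1 ≤ s ≤ v i`, and the children of the
states `(i, 1), …, (i, v i)` are together all `(j, t)` with `A i j = 1`, each one once.
-/

set_option autoImplicit false

namespace Pool.Agent.Results.MP_29bdbb_an.RealizeSFTEntropy

open Filter Topology

/-- Labelled trees: the nodes are the finite words over `{0, …, d - 1}`, the children of `w` are the
words `w ++ [j]`. -/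
abbrev LabelledTree (d : ℕ) (𝒜 : Type) : Type := List (Fin d) → 𝒜

/-- `Δ_n`, the set of words of length at most `n - 1`. -/
abbrev Delta (d n : ℕ) : Type := {w : List (Fin d) // w.length < n}

/-- `n`-blocks. -/
abbrev Block (d : ℕ) (𝒜 : Type) (n : ℕ) : Type := Delta d n → 𝒜

/-- The `n`-block of the labelled tree `t` at the node `v`. -/
def blockAt {d : ℕ} {𝒜 : Type} (t : LabelledTree d 𝒜) (v : List (Fin d)) (n : ℕ) : Block d 𝒜 n :=
  fun w => t (v ++ w.1)

/-- The set `X_F` of the labelled trees in which no block of `F` occurs at any node. -/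
def TreeShift {d : ℕ} {𝒜 : Type} (F : Set (Σ n : ℕ, Block d 𝒜 n)) : Set (LabelledTree d 𝒜) :=
  {t | ∀ p ∈ F, ∀ v : List (Fin d), blockAt t v p.1 ≠ p.2}

/-- `B_n(X)`, the set of `n`-blocks occurring in elements of `X`. -/
def blocks {d : ℕ} {𝒜 : Type} (X : Set (LabelledTree d 𝒜)) (n : ℕ) : Set (Block d 𝒜 n) :=
  {b | ∃ t ∈ X, ∃ v : List (Fin d), blockAt t v n = b}

/-- The entropy of `X`, the limit of `ln ln |B_n(X)| / n`, exists and is equal to `h`. -/
def HasEntropy {d : ℕ} {𝒜 : Type} (X : Set (LabelledTree d 𝒜)) (h : ℝ) : Prop :=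
  Tendsto (fun n : ℕ => Real.log (Real.log ((blocks X n).ncard : ℝ)) / n) atTop (𝓝 h)

/-- There is a nonempty tree-shift of finite type on the tree with `d` children (with a finite
alphabet and a finite set of forbidden blocks) with entropy `h`. -/
def Realizable (d : ℕ) (h : ℝ) : Prop :=
  ∃ (𝒜 : Type) (_ : Finite 𝒜) (F : Set (Σ n : ℕ, Block d 𝒜 n)),
    F.Finite ∧ (TreeShift F).Nonempty ∧ HasEntropy (TreeShift F) h

/-- The matrix shift `X_A`. -/
def MatrixShift {k : ℕ} (A : Matrix (Fin k) (Fin k) ℕ) : Set (ℤ → Fin k) :=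
  {x | ∀ i : ℤ, A (x i) (x (i + 1)) = 1}

/-- The spectral radius `ρ(A)`. The topological entropy of `X_A` is `ln ρ(A)`. -/
noncomputable def rho {k : ℕ} (A : Matrix (Fin k) (Fin k) ℕ) : ℝ :=
  (spectralRadius ℂ (A.map (fun a : ℕ => (a : ℂ)))).toReal

/-! ### A lemma on growth rates -/

theorem growth (L : ℝ) (x : ℕ → ℝ) (hx : ∀ m, 1 ≤ x m)
    (hlim : Tendsto (fun m : ℕ => Real.log (x m) / m) atTop (𝓝 L)) (hL : 0 ≤ L) (y : ℕ → ℝ) (K : ℝ)
    (hK : 0 ≤ K) (hlow : ∀ n, Real.log 2 * x n ≤ y (n + 1))
    (hup : ∀ n, y n ≤ K + Real.log 2 * ∑ m ∈ Finset.range n, x m) :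
    Tendsto (fun n : ℕ => Real.log (y n) / n) atTop (𝓝 L) := by
  have hl2 : 0 < Real.log 2 := Real.log_pos (by norm_num)
  have hl2' : Real.log 2 ≤ 1 := by
    have := Real.log_two_lt_d9
    linarith
  have hypos : ∀ n, 0 < y (n + 1) := fun n =>
    lt_of_lt_of_le (mul_pos hl2 (lt_of_lt_of_le one_pos (hx n))) (hlow n)
  have hlow' : Tendsto (fun n : ℕ => (Real.log (Real.log 2) + Real.log (x n)) / ((n + 1 : ℕ) : ℝ))
      atTop (𝓝 L) := by
    have h1 : Tendsto (fun n : ℕ => (Real.log (Real.log 2)) / ((n + 1 : ℕ) : ℝ)) atTop (𝓝 0) :=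
      (tendsto_const_div_atTop_nhds_zero_nat _).comp (tendsto_add_atTop_nat 1)
    have h2 : Tendsto (fun n : ℕ => (n : ℝ) / ((n + 1 : ℕ) : ℝ)) atTop (𝓝 1) := by
      have := tendsto_natCast_div_add_atTop (1 : ℝ)
      refine this.congr fun n => ?_
      push_cast
      rfl
    have h3 := h1.add (hlim.mul h2)
    rw [zero_add, mul_one] at h3
    refine h3.congr' ?_
    filter_upwards [eventually_gt_atTop 0] with n hn
    have hn' : (n : ℝ) ≠ 0 := by positivity
    have hn1 : ((n + 1 : ℕ) : ℝ) ≠ 0 := by positivity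
    field_simp
  rw [← tendsto_add_atTop_iff_nat 1, tendsto_order]
  constructor
  · intro a ha
    filter_upwards [(tendsto_order.1 hlow').1 a ha] with n hn
    refine hn.trans_le ?_
    have hn1 : (0 : ℝ) < ((n + 1 : ℕ) : ℝ) := by positivity
    refine div_le_div_of_nonneg_right ?_ hn1.le
    rw [← Real.log_mul hl2.ne' (lt_of_lt_of_le one_pos (hx n)).ne']
    exact Real.log_le_log (mul_pos hl2 (lt_of_lt_of_le one_pos (hx n))) (hlow n)
  · intro b hb
    set c : ℝ := (L + b) / 2 with hc
    have hLc : L < c := by rw [hc]; linarith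
    have hcb : c < b := by rw [hc]; linarith
    have hc0 : 0 ≤ c := hL.trans hLc.le
    obtain ⟨M, hM⟩ := eventually_atTop.1 ((tendsto_order.1 hlim).2 c hLc)
    have hsum : ∀ s : Finset ℕ, 0 ≤ ∑ m ∈ s, x m := fun s =>
      Finset.sum_nonneg fun m _ => zero_le_one.trans (hx m)
    set C : ℝ := 1 + ∑ m ∈ Finset.range (M + 1), x m with hC
    have hC1 : 1 ≤ C := by
      have := hsum (Finset.range (M + 1))
      rw [hC]; linarith
    have hxC : ∀ m, x m ≤ C * Real.exp (c * m) := by
      intro m
      have hexp : 1 ≤ Real.exp (c * m) := Real.one_le_exp (by positivity)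
      by_cases hm : m < M + 1
      · have h1 : x m ≤ ∑ m ∈ Finset.range (M + 1), x m :=
          Finset.single_le_sum (f := x) (fun i _ => zero_le_one.trans (hx i))
            (Finset.mem_range.2 hm)
        nlinarith
      · have hm0 : (0 : ℝ) < m := by
          have : 0 < m := by omega
          exact_mod_cast this
        have h1 := hM m (by omega)
        rw [div_lt_iff₀ hm0] at h1
        have h2 : x m ≤ Real.exp (c * m) := by
          rw [← Real.exp_log (lt_of_lt_of_le one_pos (hx m))]
          exact Real.exp_le_exp.2 h1.le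
        nlinarith [Real.exp_pos (c * m)]
    have hyC : ∀ n, y (n + 1) ≤ (K + C) * ((n + 1 : ℕ) : ℝ) * Real.exp (c * ((n + 1 : ℕ) : ℝ)) := by
      intro n
      refine (hup (n + 1)).trans ?_
      have h1 : ∑ m ∈ Finset.range (n + 1), x m ≤
          ((n + 1 : ℕ) : ℝ) * (C * Real.exp (c * ((n + 1 : ℕ) : ℝ))) := by
        have h2 : ∑ m ∈ Finset.range (n + 1), x m ≤
            ∑ _m ∈ Finset.range (n + 1), (C * Real.exp (c * ((n + 1 : ℕ) : ℝ))) := by
          refine Finset.sum_le_sum fun m hm => (hxC m).trans ?_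
          refine mul_le_mul_of_nonneg_left (Real.exp_le_exp.2 ?_) (by linarith)
          refine mul_le_mul_of_nonneg_left ?_ hc0
          have := Finset.mem_range.1 hm
          exact_mod_cast this.le
        simpa using h2
      have hn1 : (1 : ℝ) ≤ ((n + 1 : ℕ) : ℝ) := by
        push_cast
        have : (0 : ℝ) ≤ n := Nat.cast_nonneg n
        linarith
      have hexp : 1 ≤ Real.exp (c * ((n + 1 : ℕ) : ℝ)) := Real.one_le_exp (by positivity)
      have h3 : Real.log 2 * ∑ m ∈ Finset.range (n + 1), x m ≤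
          ∑ m ∈ Finset.range (n + 1), x m := by
        have := hsum (Finset.range (n + 1))
        nlinarith
      have h4 : K ≤ K * (((n + 1 : ℕ) : ℝ) * Real.exp (c * ((n + 1 : ℕ) : ℝ))) :=
        le_mul_of_one_le_right hK (one_le_mul_of_one_le_of_one_le hn1 hexp)
      calc K + Real.log 2 * ∑ m ∈ Finset.range (n + 1), x m
          ≤ K * (((n + 1 : ℕ) : ℝ) * Real.exp (c * ((n + 1 : ℕ) : ℝ))) +
            ((n + 1 : ℕ) : ℝ) * (C * Real.exp (c * ((n + 1 : ℕ) : ℝ))) := by
              linarith
        _ = _ := by ring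
    have hlog : Tendsto (fun n : ℕ => Real.log ((n + 1 : ℕ) : ℝ) / ((n + 1 : ℕ) : ℝ)) atTop
        (𝓝 0) := by
      have h := Real.isLittleO_log_id_atTop.tendsto_div_nhds_zero
      exact (h.comp tendsto_natCast_atTop_atTop).comp (tendsto_add_atTop_nat 1)
    have hconst : Tendsto (fun n : ℕ => Real.log (K + C) / ((n + 1 : ℕ) : ℝ)) atTop (𝓝 0) :=
      (tendsto_const_div_atTop_nhds_zero_nat _).comp (tendsto_add_atTop_nat 1)
    have hup' : Tendsto (fun n : ℕ => Real.log (K + C) / ((n + 1 : ℕ) : ℝ) +
        Real.log ((n + 1 : ℕ) : ℝ) / ((n + 1 : ℕ) : ℝ) + c) atTop (𝓝 c) := by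
      have := (hconst.add hlog).add_const c
      simpa using this
    filter_upwards [(tendsto_order.1 hup').2 b hcb] with n hn
    refine lt_of_le_of_lt ?_ hn
    have hn1 : (0 : ℝ) < ((n + 1 : ℕ) : ℝ) := by positivity
    have hKC : 0 < K + C := by linarith
    have h1 : Real.log (y (n + 1)) ≤ Real.log (K + C) + Real.log ((n + 1 : ℕ) : ℝ) +
        c * ((n + 1 : ℕ) : ℝ) := by
      refine (Real.log_le_log (hypos n) (hyC n)).trans_eq ?_
      rw [Real.log_mul (mul_pos hKC hn1).ne' (Real.exp_pos _).ne', Real.log_mul hKC.ne' hn1.ne',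
        Real.log_exp]
    rw [div_le_iff₀ hn1]
    refine h1.trans_eq ?_
    field_simp

/-! ### The tree-shift of a finite system of states -/

section construction

variable {d : ℕ} {S : Type} [Fintype S] [DecidableEq S] (nx : S → Fin d → Option S)

/-- The labels: `none`, or a state and a free bit. -/
abbrev Lab (S : Type) : Type := Option (S × Bool)

/-- The state of a label. -/
def st {S : Type} (x : Lab S) : Option S := x.map Prod.fst

/-- The state of the child number `j` of a node of state `s`. -/
def next {d : ℕ} {S : Type} (nx : S → Fin d → Option S) (s : Option S) (j : Fin d) : Option S :=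
  s.bind fun i => nx i j

/-- The root as an element of `Δ_2`. -/
def rootNode (d : ℕ) : Delta d 2 := ⟨[], by simp⟩

/-- The child number `j` of the root. -/
def childNode {d : ℕ} (j : Fin d) : Delta d 2 := ⟨[j], by simp⟩

/-- The forbidden blocks. -/
def Forb {d : ℕ} {S : Type} (nx : S → Fin d → Option S) : Set (Σ n : ℕ, Block d (Lab S) n) :=
  {p | ∃ b : Block d (Lab S) 2, p = ⟨2, b⟩ ∧
    ∃ j : Fin d, st (b (childNode j)) ≠ next nx (st (b (rootNode d))) j}

omit [Fintype S] [DecidableEq S] in
theorem mem_shift (t : LabelledTree d (Lab S)) :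
    t ∈ TreeShift (Forb nx) ↔ ∀ v j, st (t (v ++ [j])) = next nx (st (t v)) j := by
  constructor
  · intro ht v j
    by_contra hne
    refine ht ⟨2, blockAt t v 2⟩ ⟨blockAt t v 2, rfl, j, ?_⟩ v rfl
    simpa [blockAt, childNode, rootNode] using hne
  · rintro ht p ⟨b, rfl, j, hj⟩ v hv
    apply hj
    simp only at hv
    rw [← hv]
    simpa [blockAt, childNode, rootNode] using ht v j

instance finite_delta (d n : ℕ) : Finite (Delta d n) := by
  have := List.finite_length_lt (Fin d) n
  exact this.to_subtype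

omit [DecidableEq S] in
theorem forb_finite : (Forb nx).Finite := by
  have : (Set.range fun b : Block d (Lab S) 2 =>
      (⟨2, b⟩ : Σ n : ℕ, Block d (Lab S) n)).Finite := Set.finite_range _
  refine this.subset ?_
  rintro p ⟨b, rfl, -⟩
  exact ⟨b, rfl⟩

/-- The blocks with root state `s`. -/
def Good {d : ℕ} {S : Type} (nx : S → Fin d → Option S) (s : Option S) (n : ℕ) :
    Set (Block d (Lab S) n) :=
  {b | ∀ w : Delta d n, st (b w) = w.1.foldl (next nx) s}

omit [Fintype S] [DecidableEq S] in
theorem mem_blocks (n : ℕ) (b : Block d (Lab S) n) :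
    b ∈ blocks (TreeShift (Forb nx)) n ↔ ∃ s, b ∈ Good nx s n := by
  constructor
  · rintro ⟨t, ht, v, rfl⟩
    refine ⟨st (t v), ?_⟩
    rw [mem_shift] at ht
    rintro ⟨w, hw⟩
    simp only [blockAt]
    clear hw
    induction w using List.reverseRecOn with
    | nil => simp
    | append_singleton w j ih =>
      rw [← List.append_assoc, ht, ih, List.foldl_append]
      rfl
  · rintro ⟨s, hb⟩
    let t : LabelledTree d (Lab S) := fun w =>
      if h : w.length < n then b ⟨w, h⟩ else (w.foldl (next nx) s).map fun i => (i, false)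
    have hst : ∀ w, st (t w) = w.foldl (next nx) s := by
      intro w
      by_cases h : w.length < n
      · have := hb ⟨w, h⟩
        simpa [t, h] using this
      · simp only [t, h, dite_false, st, Option.map_map]
        have : (Prod.fst ∘ fun i : S => (i, false)) = id := rfl
        rw [this, Option.map_id]
        rfl
    refine ⟨t, ?_, [], ?_⟩
    · rw [mem_shift]
      intro v j
      rw [hst, hst, List.foldl_append]
      rfl
    · funext w
      simp only [blockAt, List.nil_append, t]
      rw [dif_pos w.2]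

omit [Fintype S] [DecidableEq S] in
theorem good_zero (s : Option S) : Good nx s 0 = Set.univ := by
  ext b
  simp only [Good, Set.mem_ofPred_eq, Set.mem_univ, iff_true]
  rintro ⟨w, hw⟩
  exact absurd hw (Nat.not_lt_zero _)

/-- A block of height `n + 1` is given by the label of the root and the blocks at its children. -/
def split {d : ℕ} {S : Type} (n : ℕ) : Block d (Lab S) (n + 1) ≃
    Lab S × (Fin d → Block d (Lab S) n) where
  toFun b := (b ⟨[], by simp⟩, fun j w => b ⟨j :: w.1, by simpa using w.2⟩)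
  invFun q := fun w => match w with
    | ⟨[], _⟩ => q.1
    | ⟨j :: u, h⟩ => q.2 j ⟨u, by simpa using h⟩
  left_inv b := by
    funext w
    rcases w with ⟨w, hw⟩
    cases w with
    | nil => rfl
    | cons j u => rfl
  right_inv q := rfl

omit [Fintype S] [DecidableEq S] in
theorem split_good (s : Option S) (n : ℕ) (b : Block d (Lab S) (n + 1)) :
    b ∈ Good nx s (n + 1) ↔ (split n b).1 ∈ {x : Lab S | st x = s} ∧
      (split n b).2 ∈ Set.pi Set.univ fun j => Good nx (next nx s j) n := by
  constructor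
  · intro hb
    refine ⟨hb ⟨[], by simp⟩, fun j _ w => ?_⟩
    exact hb ⟨j :: w.1, by simpa using w.2⟩
  · rintro ⟨h1, h2⟩ ⟨w, hw⟩
    cases w with
    | nil => exact h1
    | cons j u => exact h2 j trivial ⟨u, by simpa using hw⟩

omit [Fintype S] [DecidableEq S] in
theorem card_state (s : Option S) :
    ({x : Lab S | st x = s}).ncard = 2 ^ (if s = none then 0 else 1) := by
  cases s with
  | none =>
    have : {x : Lab S | st x = none} = {none} := by
      ext x
      cases x <;> simp [st]
    rw [this]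
    simp
  | some i =>
    have : {x : Lab S | st x = some i} = {some (i, false), some (i, true)} := by
      ext x
      cases x with
      | none => simp [st]
      | some q =>
        obtain ⟨a, b⟩ := q
        cases b <;> simp [st]
    rw [this, Set.ncard_pair (by simp)]
    simp

/-- The number of nodes with a state (not `none`) in a block with root state `s`. -/
def act {d : ℕ} {S : Type} [DecidableEq S] (nx : S → Fin d → Option S) : ℕ → Option S → ℕ
  | 0, _ => 0
  | n + 1, s => (if s = none then 0 else 1) + ∑ j : Fin d, act nx n (next nx s j)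

omit [Fintype S] in
theorem card_good (n : ℕ) : ∀ s : Option S, (Good nx s n).ncard = 2 ^ act nx n s := by
  induction n with
  | zero =>
    intro s
    rw [good_zero, Set.ncard_univ]
    have : IsEmpty (Delta d 0) := ⟨fun w => absurd w.2 (Nat.not_lt_zero _)⟩
    simp [act]
  | succ n ih =>
    intro s
    have h1 : Good nx s (n + 1) = (split n).symm '' ({x : Lab S | st x = s} ×ˢ
        Set.pi Set.univ fun j => Good nx (next nx s j) n) := by
      ext b
      rw [Equiv.image_eq_preimage_symm, Set.mem_preimage, Equiv.symm_symm, Set.mem_prod]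
      exact split_good nx s n b
    rw [h1, Set.ncard_image_of_injective _ (split n).symm.injective, Set.ncard_prod, card_state]
    have h2 : (Set.pi Set.univ fun j => Good nx (next nx s j) n).ncard =
        ∏ j : Fin d, (Good nx (next nx s j) n).ncard := by
      rw [← Nat.card_coe_set_eq, Nat.card_congr (Equiv.Set.univPi _), Nat.card_pi]
      rfl
    rw [h2, act, pow_add, Finset.prod_congr rfl fun j _ => ih (next nx s j),
      Finset.prod_pow_eq_pow_sum]

omit [Fintype S] in
theorem act_none (n : ℕ) : act nx n none = 0 := by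
  induction n with
  | zero => rfl
  | succ n ih => simp [act, next, ih]

/-- The number of nodes with a state on level `m` of a tree with root state `s`. -/
def lev {d : ℕ} {S : Type} (nx : S → Fin d → Option S) : ℕ → Option S → ℕ
  | 0, s => if s.isSome then 1 else 0
  | m + 1, s => ∑ j : Fin d, lev nx m (next nx s j)

omit [Fintype S] [DecidableEq S] in
theorem lev_none (m : ℕ) : lev nx m none = 0 := by
  induction m with
  | zero => rfl
  | succ m ih => simp [lev, next, ih]

omit [Fintype S] in
theorem act_eq (n : ℕ) : ∀ s : Option S, act nx n s = ∑ m ∈ Finset.range n, lev nx m s := by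
  induction n with
  | zero => intro s; simp [act]
  | succ n ih =>
    intro s
    rw [act, Finset.sum_range_succ', Finset.sum_congr rfl fun j _ => ih (next nx s j),
      Finset.sum_comm, add_comm]
    congr 1
    cases s <;> simp [lev]

omit [Fintype S] [DecidableEq S] in
theorem blocks_eq (n : ℕ) : blocks (TreeShift (Forb nx)) n = ⋃ s, Good nx s n := by
  ext b
  rw [mem_blocks, Set.mem_iUnion]

theorem ncard_blocks_le (n : ℕ) (K : ℕ) (hK : ∀ s, act nx n s ≤ K) :
    (blocks (TreeShift (Forb nx)) n).ncard ≤ (Fintype.card S + 1) * 2 ^ K := by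
  rw [blocks_eq]
  refine (Set.ncard_iUnion_le_of_fintype _).trans ?_
  have h1 : ∀ s, (Good nx s n).ncard ≤ 2 ^ K := fun s => by
    rw [card_good]
    exact Nat.pow_le_pow_right (by norm_num) (hK s)
  refine (Finset.sum_le_sum fun s _ => h1 s).trans ?_
  simp

theorem le_ncard_blocks (n : ℕ) (s : Option S) :
    2 ^ act nx n s ≤ (blocks (TreeShift (Forb nx)) n).ncard := by
  rw [← card_good, blocks_eq]
  exact Set.ncard_le_ncard (Set.subset_iUnion (fun s => Good nx s n) s) (Set.toFinite _)

/-- The maximal number of nodes with a state on level `m`. -/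
def maxLev {d : ℕ} {S : Type} [Fintype S] (nx : S → Fin d → Option S) (m : ℕ) : ℕ :=
  Finset.univ.sup fun i : S => lev nx m (some i)

theorem act_le (n : ℕ) (s : Option S) : act nx n s ≤ ∑ m ∈ Finset.range n, maxLev nx m := by
  cases s with
  | none => rw [act_none]; exact Nat.zero_le _
  | some i =>
    rw [act_eq]
    exact Finset.sum_le_sum fun m _ => Finset.le_sup (f := fun i => lev nx m (some i))
      (Finset.mem_univ i)

theorem le_act (n : ℕ) (h : 1 ≤ maxLev nx n) : ∃ s, maxLev nx n ≤ act nx (n + 1) s := by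
  have hS : (Finset.univ : Finset S).Nonempty := by
    by_contra hne
    rw [Finset.not_nonempty_iff_eq_empty] at hne
    rw [maxLev, hne] at h
    simp at h
  obtain ⟨i, -, hi⟩ := Finset.exists_mem_eq_sup Finset.univ hS (fun i : S => lev nx n (some i))
  refine ⟨some i, ?_⟩
  rw [maxLev, hi, act_eq]
  exact Finset.single_le_sum (f := fun m => lev nx m (some i)) (fun _ _ => Nat.zero_le _)
    (Finset.self_mem_range_succ n)

theorem realizable_of (L : ℝ) (hL : 0 ≤ L) (h1 : ∀ m, 1 ≤ maxLev nx m)
    (hlim : Tendsto (fun m : ℕ => Real.log (maxLev nx m) / m) atTop (𝓝 L)) : Realizable d L := by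
  refine ⟨Lab S, inferInstance, Forb nx, forb_finite nx, ⟨fun _ => none, ?_⟩, ?_⟩
  · rw [mem_shift]
    intro v j
    rfl
  · refine growth L (fun m => (maxLev nx m : ℝ)) (fun m => by exact_mod_cast h1 m)
      hlim hL _ (Real.log (Fintype.card S + 1)) (Real.log_nonneg (by
        have : (0 : ℝ) ≤ Fintype.card S := Nat.cast_nonneg _
        linarith)) ?_ ?_
    · intro n
      obtain ⟨s, hs⟩ := le_act nx n (h1 n)
      have h1 : 2 ^ maxLev nx n ≤ (blocks (TreeShift (Forb nx)) (n + 1)).ncard :=
        (Nat.pow_le_pow_right (by norm_num) hs).trans (le_ncard_blocks nx (n + 1) s)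
      have h2 : (2 : ℝ) ^ maxLev nx n ≤ ((blocks (TreeShift (Forb nx)) (n + 1)).ncard : ℝ) := by
        exact_mod_cast h1
      have h3 := Real.log_le_log (by positivity) h2
      rw [Real.log_pow] at h3
      rw [mul_comm]
      exact h3
    · intro n
      have h1 := ncard_blocks_le nx n _ (act_le nx n)
      have h2 : ((blocks (TreeShift (Forb nx)) n).ncard : ℝ) ≤
          (Fintype.card S + 1) * 2 ^ (∑ m ∈ Finset.range n, maxLev nx m) := by
        exact_mod_cast h1
      have h0 : (0 : ℝ) < ((blocks (TreeShift (Forb nx)) n).ncard : ℝ) := by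
        have := le_ncard_blocks nx n none
        rw [act_none] at this
        have h3 : 0 < (blocks (TreeShift (Forb nx)) n).ncard := by omega
        exact_mod_cast h3
      refine (Real.log_le_log h0 h2).trans_eq ?_
      have hk1 : (0 : ℝ) < (Fintype.card S : ℝ) + 1 := by positivity
      rw [Real.log_mul hk1.ne' (by positivity), Real.log_pow]
      push_cast
      ring

end construction

/-! ### Numbers of paths and the spectral radius -/

section paths

variable {k : ℕ} (A : Matrix (Fin k) (Fin k) ℕ)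

/-- The number of paths of length `m` starting at `i`. -/
def paths (m : ℕ) (i : Fin k) : ℕ := ∑ j, (A ^ m) i j

theorem paths_zero (i : Fin k) : paths A 0 i = 1 := by
  simp [paths, Matrix.one_apply]

theorem paths_succ (m : ℕ) (i : Fin k) : paths A (m + 1) i = ∑ j, A i j * paths A m j := by
  simp only [paths, pow_succ', Matrix.mul_apply]
  rw [Finset.sum_comm]
  exact Finset.sum_congr rfl fun j _ => by rw [Finset.mul_sum]

/-- The maximal number of paths of length `m` with given initial state. -/
def maxPaths (m : ℕ) : ℕ := Finset.univ.sup fun i => paths A m i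

theorem one_le_maxPaths {x : ℤ → Fin k} (hx : x ∈ MatrixShift A) (m : ℕ) : 1 ≤ maxPaths A m := by
  have h : ∀ m : ℕ, 1 ≤ (A ^ m) (x 0) (x m) := by
    intro m
    induction m with
    | zero => simp
    | succ m ih =>
      rw [pow_succ, Matrix.mul_apply]
      refine le_trans ?_ (Finset.single_le_sum
        (f := fun j => (A ^ m) (x 0) j * A j (x ((m + 1 : ℕ) : ℤ))) (fun _ _ => Nat.zero_le _)
        (Finset.mem_univ (x m)))
      have := hx m
      push_cast
      rw [this, mul_one]
      exact ih
  refine le_trans ?_ (Finset.le_sup (f := fun i => paths A m i) (Finset.mem_univ (x 0)))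
  exact (h m).trans (Finset.single_le_sum (f := fun j => (A ^ m) (x 0) j)
    (fun _ _ => Nat.zero_le _) (Finset.mem_univ (x m)))

end paths

section spectral

attribute [local instance] Matrix.linftyOpNormedRing Matrix.linftyOpNormedAlgebra

open scoped NNReal ENNReal

variable {k : ℕ} (A : Matrix (Fin k) (Fin k) ℕ)

theorem nnnorm_pow (m : ℕ) :
    ‖(A.map (fun a : ℕ => (a : ℂ))) ^ m‖₊ = ((maxPaths A m : ℕ) : ℝ≥0) := by
  have h1 : (A.map (fun a : ℕ => (a : ℂ))) ^ m = (A ^ m).map (fun a : ℕ => (a : ℂ)) := by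
    have := map_pow (Nat.castRingHom ℂ).mapMatrix A m
    exact this.symm
  rw [h1, Matrix.linfty_opNNNorm_def]
  have h2 : ∀ i, ∑ j, ‖((A ^ m).map (fun a : ℕ => (a : ℂ))) i j‖₊ = ((paths A m i : ℕ) : ℝ≥0) := by
    intro i
    simp only [Matrix.map_apply, paths, Nat.cast_sum]
    exact Finset.sum_congr rfl fun j _ => by simp
  simp_rw [h2]
  exact (Finset.apply_sup_eq_sup_comp_of_linearOrder (fun a : ℕ => (a : ℝ≥0)) Nat.mono_cast
    (by simp)).symm

theorem gelfand (hk : 0 < k) (h : ∀ m, 1 ≤ maxPaths A m) :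
    1 ≤ rho A ∧
      Tendsto (fun m : ℕ => Real.log (maxPaths A m) / m) atTop (𝓝 (Real.log (rho A))) := by
  have hfin : spectralRadius ℂ (A.map (fun a : ℕ => (a : ℂ))) ≠ ⊤ := by
    have : Nonempty (Fin k) := ⟨⟨0, hk⟩⟩
    obtain ⟨z, -, hz⟩ := spectrum.exists_nnnorm_eq_spectralRadius (A.map (fun a : ℕ => (a : ℂ)))
    rw [← hz]
    exact ENNReal.coe_ne_top
  have h1 := spectrum.pow_nnnorm_pow_one_div_tendsto_nhds_spectralRadius
    (A.map (fun a : ℕ => (a : ℂ)))
  have h2 := (ENNReal.tendsto_toReal hfin).comp h1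
  have h3 : Tendsto (fun m : ℕ => ((maxPaths A m : ℕ) : ℝ) ^ (1 / (m : ℝ))) atTop
      (𝓝 (rho A)) := by
    refine h2.congr fun m => ?_
    rw [Function.comp_apply, nnnorm_pow, ← ENNReal.toReal_rpow]
    simp
  have hge : 1 ≤ rho A := by
    refine ge_of_tendsto' h3 fun m => ?_
    refine Real.one_le_rpow ?_ (by positivity)
    exact_mod_cast h m
  refine ⟨hge, ?_⟩
  have h4 := ((Real.continuousAt_log (by linarith : rho A ≠ 0)).tendsto.comp h3)
  refine h4.congr fun m => ?_
  have hpos : (0 : ℝ) < (maxPaths A m : ℕ) := by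
    have := h m
    exact_mod_cast this
  rw [Function.comp_apply, Real.log_rpow hpos]
  ring

end spectral

/-! ### The case `ρ(A) < d` -/

section less

variable {k d : ℕ} (A : Matrix (Fin k) (Fin k) ℕ) (v : Fin k → ℕ)

/-- The states: `v i` copies of each `i`. -/
abbrev Copies (v : Fin k → ℕ) : Type := Σ i : Fin k, Fin (v i)

/-- The copies of the successors of `i`. -/
abbrev Succs (A : Matrix (Fin k) (Fin k) ℕ) (v : Fin k → ℕ) (i : Fin k) : Type :=
  {q : Copies v // A i q.1 = 1}

theorem card_succs (hA : ∀ i j, A i j = 0 ∨ A i j = 1) (i : Fin k) (g : Copies v → ℕ) :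
    ∑ q : Succs A v i, g q.1 = ∑ j, A i j * ∑ t : Fin (v j), g ⟨j, t⟩ := by
  have h1 := Finset.sum_subtype (F := (inferInstance : Fintype (Succs A v i)))
    (Finset.univ.filter fun q : Copies v => A i q.1 = 1)
    (p := fun q : Copies v => A i q.1 = 1) (fun q => by simp) g
  rw [← h1, Finset.sum_filter, Fintype.sum_sigma]
  refine Finset.sum_congr rfl fun j _ => ?_
  rcases hA i j with h | h
  · simp [h]
  · simp [h]

theorem exists_embedding (hA : ∀ i j, A i j = 0 ∨ A i j = 1)
    (hv : ∀ i, ∑ j, A i j * v j ≤ d * v i) (i : Fin k) :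
    Nonempty (Succs A v i ↪ Fin (v i) × Fin d) := by
  refine Function.Embedding.nonempty_of_card_le ?_
  have h1 := card_succs A v hA i (fun _ => 1)
  simp only [Finset.sum_const, Finset.card_univ, smul_eq_mul, mul_one, Fintype.card_fin] at h1
  rw [h1, Fintype.card_prod, Fintype.card_fin, Fintype.card_fin, mul_comm (v i)]
  exact hv i

variable {A v}

/-- The children of the copies of `i` are the copies of the successors of `i`. -/
noncomputable def nxOf (e : ∀ i, Succs A v i ↪ Fin (v i) × Fin d) (q : Copies v) (δ : Fin d) :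
    Option (Copies v) :=
  (Function.partialInv (e q.1) (q.2, δ)).map Subtype.val

theorem sum_lev_zero (e : ∀ i, Succs A v i ↪ Fin (v i) × Fin d) (i : Fin k) :
    ∑ t : Fin (v i), lev (nxOf e) 0 (some ⟨i, t⟩) = v i := by
  simp [lev]

theorem sum_lev_succ (hA : ∀ i j, A i j = 0 ∨ A i j = 1)
    (e : ∀ i, Succs A v i ↪ Fin (v i) × Fin d) (m : ℕ) (i : Fin k) :
    ∑ t : Fin (v i), lev (nxOf e) (m + 1) (some ⟨i, t⟩) =
      ∑ j, A i j * ∑ t : Fin (v j), lev (nxOf e) m (some ⟨j, t⟩) := by
  rw [← card_succs A v hA i (fun q => lev (nxOf e) m (some q))]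
  have h1 : ∀ t : Fin (v i), lev (nxOf e) (m + 1) (some ⟨i, t⟩) =
      ∑ δ : Fin d, lev (nxOf e) m ((Function.partialInv (e i) (t, δ)).map Subtype.val) := by
    intro t
    rfl
  rw [Finset.sum_congr rfl fun t _ => h1 t, ← Fintype.sum_prod_type'
    (f := fun t δ => lev (nxOf e) m ((Function.partialInv (e i) (t, δ)).map Subtype.val))]
  have hinv := (e i).injective.isPartialInv
  have h2 : ∑ q : Succs A v i, lev (nxOf e) m (some q.1) =
      ∑ p ∈ Finset.univ.map (e i),
        lev (nxOf e) m ((Function.partialInv (e i) p).map Subtype.val) := by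
    rw [Finset.sum_map]
    refine Finset.sum_congr rfl fun q _ => ?_
    rw [(hinv q (e i q)).2 rfl]
    rfl
  rw [h2]
  symm
  refine Finset.sum_subset (Finset.subset_univ _) ?_
  intro p _ hp
  have h3 : Function.partialInv (e i) p = none := by
    cases h : Function.partialInv (e i) p with
    | none => rfl
    | some q =>
      exfalso
      apply hp
      rw [Finset.mem_map]
      exact ⟨q, Finset.mem_univ _, (hinv q p).1 h⟩
  rw [h3]
  exact lev_none _ m

theorem bounds (hA : ∀ i j, A i j = 0 ∨ A i j = 1) (e : ∀ i, Succs A v i ↪ Fin (v i) × Fin d)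
    (V : ℕ) (hV : ∀ i, 1 ≤ v i ∧ v i ≤ V) (m : ℕ) : ∀ i,
    paths A m i ≤ ∑ t : Fin (v i), lev (nxOf e) m (some ⟨i, t⟩) ∧
      ∑ t : Fin (v i), lev (nxOf e) m (some ⟨i, t⟩) ≤ V * paths A m i := by
  induction m with
  | zero =>
    intro i
    rw [paths_zero, sum_lev_zero, mul_one]
    exact hV i
  | succ m ih =>
    intro i
    rw [paths_succ, sum_lev_succ hA]
    refine ⟨Finset.sum_le_sum fun j _ => Nat.mul_le_mul_left _ (ih j).1, ?_⟩
    rw [Finset.mul_sum]
    refine Finset.sum_le_sum fun j _ => ?_
    rw [Nat.mul_left_comm]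
    exact Nat.mul_le_mul_left _ (ih j).2

theorem max_bounds (hA : ∀ i j, A i j = 0 ∨ A i j = 1) (e : ∀ i, Succs A v i ↪ Fin (v i) × Fin d)
    (V : ℕ) (hV : ∀ i, 1 ≤ v i ∧ v i ≤ V) (m : ℕ) :
    maxPaths A m ≤ V * maxLev (nxOf e) m ∧ maxLev (nxOf e) m ≤ V * maxPaths A m := by
  constructor
  · refine Finset.sup_le fun i _ => ?_
    refine (bounds hA e V hV m i).1.trans ?_
    have h1 : ∀ t : Fin (v i), lev (nxOf e) m (some ⟨i, t⟩) ≤ maxLev (nxOf e) m := fun t =>
      Finset.le_sup (f := fun q => lev (nxOf e) m (some q)) (Finset.mem_univ _)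
    refine (Finset.sum_le_sum fun t _ => h1 t).trans ?_
    simp only [Finset.sum_const, Finset.card_univ, Fintype.card_fin, smul_eq_mul]
    exact Nat.mul_le_mul_right _ (hV i).2
  · refine Finset.sup_le fun q _ => ?_
    obtain ⟨i, t⟩ := q
    have h1 : lev (nxOf e) m (some ⟨i, t⟩) ≤ ∑ t : Fin (v i), lev (nxOf e) m (some ⟨i, t⟩) :=
      Finset.single_le_sum (f := fun t => lev (nxOf e) m (some ⟨i, t⟩))
        (fun _ _ => Nat.zero_le _) (Finset.mem_univ t)
    refine h1.trans ((bounds hA e V hV m i).2.trans (Nat.mul_le_mul_left _ ?_))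
    exact Finset.le_sup (f := fun i => paths A m i) (Finset.mem_univ i)

theorem realizable_less (hA : ∀ i j, A i j = 0 ∨ A i j = 1) (hk : 0 < k)
    (h1 : ∀ m, 1 ≤ maxPaths A m) (V : ℕ) (hV : ∀ i, 1 ≤ v i ∧ v i ≤ V)
    (hv : ∀ i, ∑ j, A i j * v j ≤ d * v i) : Realizable d (Real.log (rho A)) := by
  classical
  have e : ∀ i, Succs A v i ↪ Fin (v i) × Fin d := fun i =>
    (exists_embedding A v hA hv i).some
  obtain ⟨hrho, hgel⟩ := gelfand A hk h1
  have hb := max_bounds hA e V hV
  have hl : ∀ m, 1 ≤ maxLev (nxOf e) m := by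
    intro m
    by_contra h
    have h0 : maxLev (nxOf e) m = 0 := by omega
    have h2 := (hb m).1
    rw [h0, mul_zero] at h2
    have := h1 m
    omega
  refine realizable_of (nxOf e) _ (Real.log_nonneg hrho) hl ?_
  have hV1 : 1 ≤ V := (hV ⟨0, hk⟩).1.trans (hV ⟨0, hk⟩).2
  have hVr : (0 : ℝ) < V := by exact_mod_cast hV1
  have hz : Tendsto (fun m : ℕ => Real.log V / m) atTop (𝓝 0) :=
    tendsto_const_div_atTop_nhds_zero_nat _
  have hlow := hgel.sub hz
  have hupp := hgel.add hz
  rw [sub_zero] at hlow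
  rw [add_zero] at hupp
  refine tendsto_of_tendsto_of_tendsto_of_le_of_le hlow hupp ?_ ?_
  · intro m
    show Real.log (maxPaths A m) / m - Real.log V / m ≤ Real.log (maxLev (nxOf e) m) / m
    rw [← sub_div]
    refine div_le_div_of_nonneg_right ?_ (Nat.cast_nonneg m)
    have h2 : (0 : ℝ) < maxPaths A m := by exact_mod_cast h1 m
    have h3 : (0 : ℝ) < maxLev (nxOf e) m := by exact_mod_cast hl m
    have h4 : (maxPaths A m : ℝ) ≤ V * maxLev (nxOf e) m := by exact_mod_cast (hb m).1
    have h5 := Real.log_le_log h2 h4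
    rw [Real.log_mul hVr.ne' h3.ne'] at h5
    linarith
  · intro m
    show Real.log (maxLev (nxOf e) m) / m ≤ Real.log (maxPaths A m) / m + Real.log V / m
    rw [← add_div]
    refine div_le_div_of_nonneg_right ?_ (Nat.cast_nonneg m)
    have h2 : (0 : ℝ) < maxPaths A m := by exact_mod_cast h1 m
    have h3 : (0 : ℝ) < maxLev (nxOf e) m := by exact_mod_cast hl m
    have h4 : (maxLev (nxOf e) m : ℝ) ≤ V * maxPaths A m := by exact_mod_cast (hb m).2
    have h5 := Real.log_le_log h3 h4
    rw [Real.log_mul hVr.ne' h2.ne'] at h5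
    linarith

end less

/-- A positive integer vector with `A v ≤ d v`. -/
theorem exists_vector {k d : ℕ} (A : Matrix (Fin k) (Fin k) ℕ) (hd : 1 ≤ d) (N : ℕ) (hN : 1 ≤ N)
    (h : ∀ i, paths A N i ≤ d ^ N) :
    ∃ v : Fin k → ℕ, (∀ i, 1 ≤ v i) ∧ ∀ i, ∑ j, A i j * v j ≤ d * v i := by
  refine ⟨fun i => ∑ m ∈ Finset.range N, d ^ (N - 1 - m) * paths A m i, ?_, ?_⟩
  · intro i
    refine le_trans ?_ (Finset.single_le_sum (f := fun m => d ^ (N - 1 - m) * paths A m i)
      (fun _ _ => Nat.zero_le _) (Finset.mem_range.2 (by omega : 0 < N)))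
    simp only [paths_zero, mul_one]
    exact Nat.one_le_pow _ _ hd
  · intro i
    have h1 : ∑ j, A i j * ∑ m ∈ Finset.range N, d ^ (N - 1 - m) * paths A m j =
        ∑ m ∈ Finset.range N, d ^ (N - (m + 1)) * paths A (m + 1) i := by
      simp_rw [Finset.mul_sum]
      rw [Finset.sum_comm]
      refine Finset.sum_congr rfl fun m _ => ?_
      rw [paths_succ, Finset.mul_sum, show N - 1 - m = N - (m + 1) by omega]
      exact Finset.sum_congr rfl fun j _ => by ring
    have h2 : d * ∑ m ∈ Finset.range N, d ^ (N - 1 - m) * paths A m i =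
        ∑ m ∈ Finset.range N, d ^ (N - m) * paths A m i := by
      rw [Finset.mul_sum]
      refine Finset.sum_congr rfl fun m hm => ?_
      have := Finset.mem_range.1 hm
      rw [show N - m = (N - 1 - m) + 1 by omega, pow_succ]
      ring
    rw [h1, h2]
    have h3 := Finset.sum_range_succ (fun m => d ^ (N - m) * paths A m i) N
    have h4 := Finset.sum_range_succ' (fun m => d ^ (N - m) * paths A m i) N
    have h5 := h i
    simp only [Nat.sub_self, pow_zero, one_mul, Nat.sub_zero, paths_zero, mul_one] at h3 h4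
    omega

/-- The full tree-shift. -/
theorem realizable_full (d : ℕ) (hd : 1 ≤ d) : Realizable d (Real.log d) := by
  have hlev : ∀ m, lev (fun (_ : Unit) (_ : Fin d) => some ()) m (some ()) = d ^ m := by
    intro m
    induction m with
    | zero => simp [lev]
    | succ m ih =>
      simp only [lev, next, Option.bind_some, ih]
      simp [pow_succ']
  have hmax : ∀ m, maxLev (fun (_ : Unit) (_ : Fin d) => some ()) m = d ^ m := by
    intro m
    simp [maxLev, hlev]
  refine realizable_of (fun (_ : Unit) (_ : Fin d) => some ()) _ (Real.log_nonneg (by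
    exact_mod_cast hd)) (fun m => ?_) ?_
  · rw [hmax]
    exact Nat.one_le_pow _ _ hd
  · refine tendsto_const_nhds.congr' ?_
    filter_upwards [eventually_gt_atTop 0] with m hm
    rw [hmax]
    push_cast
    rw [Real.log_pow]
    have : (m : ℝ) ≠ 0 := by positivity
    field_simp

/-- Let `A` be a `0`-`1` matrix with `X_A ≠ ∅`. (1) For every `d ≥ 2` with `ρ(A) ≤ d` there is a
nonempty tree-shift of finite type `X` on the tree with `d` children whose entropy
`lim ln ln |B_n(X)| / n` exists and is equal to `ln ρ(A)`, the topological entropy of `X_A`.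
(2) In particular there is such a tree-shift for some `d ≥ 2`. -/
theorem result (k : ℕ) (A : Matrix (Fin k) (Fin k) ℕ) (hA : ∀ i j, A i j = 0 ∨ A i j = 1)
    (hne : (MatrixShift A).Nonempty) :
    (∀ d : ℕ, 2 ≤ d → rho A ≤ d → Realizable d (Real.log (rho A))) ∧
    ∃ d : ℕ, 2 ≤ d ∧ Realizable d (Real.log (rho A)) := by
  have key : ∀ d : ℕ, 2 ≤ d → rho A ≤ d → Realizable d (Real.log (rho A)) := by
    intro d hd hle
    obtain ⟨x, hx⟩ := hne
    have hk : 0 < k := (x 0).pos
    have hmax : ∀ m, 1 ≤ maxPaths A m := one_le_maxPaths A hx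
    obtain ⟨hrho, hgel⟩ := gelfand A hk hmax
    rcases hle.eq_or_lt with heq | hlt
    · rw [heq]
      exact realizable_full d (by omega)
    · have hlog : Real.log (rho A) < Real.log d := Real.log_lt_log (by linarith) hlt
      obtain ⟨N, hN, hN1⟩ := (((tendsto_order.1 hgel).2 _ hlog).and
        (eventually_ge_atTop 1)).exists
      have hN0 : (0 : ℝ) < N := by exact_mod_cast hN1
      have hd0 : (0 : ℝ) < d := by
        have : 0 < d := by omega
        exact_mod_cast this
      rw [div_lt_iff₀ hN0] at hN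
      have h1 : (maxPaths A N : ℝ) ≤ d ^ N := by
        have h2 : (0 : ℝ) < maxPaths A N := by exact_mod_cast hmax N
        rw [← Real.exp_log h2, ← Real.exp_log (pow_pos hd0 N), Real.log_pow]
        exact Real.exp_le_exp.2 (by linarith)
      have h2 : maxPaths A N ≤ d ^ N := by exact_mod_cast h1
      obtain ⟨v, hv1, hv2⟩ := exists_vector A (by omega : 1 ≤ d) N hN1 fun i =>
        (Finset.le_sup (f := fun i => paths A N i) (Finset.mem_univ i)).trans h2
      exact realizable_less hA hk hmax (∑ i, v i) (fun i => ⟨hv1 i,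
        Finset.single_le_sum (fun _ _ => Nat.zero_le _) (Finset.mem_univ i)⟩) hv2
  refine ⟨key, ?_⟩
  obtain ⟨n, hn⟩ := exists_nat_ge (rho A)
  refine ⟨max n 2, le_max_right _ _, key _ (le_max_right _ _) (hn.trans ?_)⟩
  exact_mod_cast le_max_left n 2

end Pool.Agent.Results.MP_29bdbb_an.RealizeSFTEntropy
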